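import Pool.Agent.Helper38.MS.Defs

/-!
# MS4: the relative structure
-/

set_option autoImplicit false

namespace Pool.Agent.Helper38.MS

open FirstOrder Pool.Agent.Helper20.Spectra Pool.Agent.Helper31.QD Pool.Agent.Helper38.MC
  Pool.Agent.Helper58.QD Pool.Agent.Helper40.MC Pool.Agent.Helper6.MC Pool.Agent.Helper6.EA

variable {S : Type} {ar : S → ℕ} {V : Type} [Fintype V]

omit [Fintype V] in
/-- MS4a: the automorphisms of the relative structure -/
theorem AuG_Rel {W : Type} (R : Interp S ar V) (w : W → V) (hw : Function.Injective w) :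
    AuG (Rel R w) = res (AuG R) w hw := by
  classical
  ext γ
  rw [mem_res]
  constructor
  · intro hγ σ h1 h2
    have hγ' : Au (Rel R w) γ := hγ
    show Au R σ
    intro s t
    rcases isEmpty_or_nonempty W with hW | ⟨⟨x0⟩⟩
    · have h3 : (⇑σ ∘ t) = t := by
        funext i
        exact h2 _ (fun x => (hW.false x).elim)
      rw [h3]
    · set p : Fin (ar s) → Option {a : V // a ∉ Set.range w} := fun i =>
        if h : t i ∈ Set.range w then none else some ⟨t i, h⟩ with hp
      set y : Fin (ar s) → W := fun i => if h : t i ∈ Set.range w then h.choose else x0 with hy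
      have e1 : (fun i => (p i).elim (w (y i)) Subtype.val) = t := by
        funext i
        by_cases h : t i ∈ Set.range w
        · have a1 : p i = none := by rw [hp]; simp only; rw [dif_pos h]
          have a2 : y i = h.choose := by rw [hy]; simp only; rw [dif_pos h]
          rw [a1, a2]
          exact h.choose_spec
        · have a1 : p i = some ⟨t i, h⟩ := by rw [hp]; simp only; rw [dif_neg h]
          rw [a1]
          rfl
      have e2 : (fun i => (p i).elim (w (γ (y i))) Subtype.val) = ⇑σ ∘ t := by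
        funext i
        by_cases h : t i ∈ Set.range w
        · have a1 : p i = none := by rw [hp]; simp only; rw [dif_pos h]
          have a2 : y i = h.choose := by rw [hy]; simp only; rw [dif_pos h]
          rw [a1, a2]
          show w (γ h.choose) = σ (t i)
          rw [← h1, h.choose_spec]
        · have a1 : p i = some ⟨t i, h⟩ := by rw [hp]; simp only; rw [dif_neg h]
          rw [a1]
          show t i = σ (t i)
          exact (h2 (t i) (fun x hx => h ⟨x, hx⟩)).symm
      have e3 := hγ' ⟨s, p⟩ y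
      have e4 : Rel R w ⟨s, p⟩ (⇑γ ∘ y) = R s (⇑σ ∘ t) := by rw [← e2]; rfl
      have e5 : Rel R w ⟨s, p⟩ y = R s t := by conv_rhs => rw [← e1]
                                               rfl
      rw [e4, e5] at e3
      exact e3
  · intro h
    obtain ⟨σ, h1, h2⟩ := exists_ext hw γ
    have h3 : Au R σ := h σ h1 h2
    show Au (Rel R w) γ
    intro s y
    have e1 := h3 s.1 (fun i => (s.2 i).elim (w (y i)) Subtype.val)
    have e2 : (⇑σ ∘ fun i => (s.2 i).elim (w (y i)) Subtype.val) =
        fun i => (s.2 i).elim (w ((⇑γ ∘ y) i)) Subtype.val := by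
      funext i
      show σ ((s.2 i).elim (w (y i)) Subtype.val) = (s.2 i).elim (w ((⇑γ ∘ y) i)) Subtype.val
      rcases s.2 i with _ | a
      · exact h1 (y i)
      · exact h2 a.1 (fun x hx => a.2 ⟨x, hx⟩)
    rw [e2] at e1
    exact e1

omit [Fintype V] in
/-- MS4a: the families of the relative structure -/
theorem NoBig_Rel {W : Type} {R : Interp S ar V} {c a e : ℕ} (h : NoBig R c a e) (w : W → V)
    (hw : Function.Injective w) : NoBig (Rel R w) c a e := by
  intro t O ht hF
  apply h t O ht
  obtain ⟨u, Γ, hu, h1, h2, h3⟩ := hF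
  have key : ∀ (γ : Equiv.Perm W), Au (Rel R w) γ → ∀ σ : Equiv.Perm V, (∀ x, σ (w x) = w (γ x)) →
      (∀ z, (∀ x, w x ≠ z) → σ z = z) → Au R σ := by
    intro γ hγ σ a1 a2
    have : γ ∈ res (AuG R) w hw := by
      rw [← AuG_Rel R w hw]
      exact hγ
    exact mem_res.1 this σ a1 a2
  refine ⟨fun p => w (u p), Γ, hw.comp hu, ?_, ?_, h3⟩
  · intro π σ a1 a2
    obtain ⟨γ, b1, b2⟩ := exists_ext hu (Equiv.prodCongr π (Equiv.refl (Fin t)))
    have b1' : ∀ i x, γ (u (i, x)) = u (π i, x) := fun i x => b1 (i, x)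
    refine key γ (h1 π γ b1' b2) σ (fun x => ?_) (fun z hz => a2 z (fun p => hz (u p)))
    by_cases hx : ∃ p, u p = x
    · obtain ⟨⟨i, y⟩, rfl⟩ := hx
      rw [b1' i y]
      exact a1 i y
    · push Not at hx
      rw [b2 x hx]
      exact a2 (w x) (fun p hp => hx p (hw hp))
  · intro γ0 hγ0 i σ a1 a2
    have hui : Function.Injective (fun x => u (i, x)) := fun x y hxy => (Prod.mk.inj (hu hxy)).2
    obtain ⟨γ, b1, b2⟩ := exists_ext hui γ0
    refine key γ (h2 γ0 hγ0 i γ b1 b2) σ (fun x => ?_) (fun z hz => a2 z (fun y => hz (u (i, y))))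
    by_cases hx : ∃ y, u (i, y) = x
    · obtain ⟨y, rfl⟩ := hx
      rw [b1 y]
      exact a1 y
    · push Not at hx
      rw [b2 x hx]
      exact a2 (w x) (fun y hy => hx y (hw hy))

omit [Fintype V] in
/-- membership in an orbit -/
theorem mem_orb88 {W : Type} [Fintype W] {H : Subgroup (Equiv.Perm W)} {x y : W} :
    y ∈ orb H x ↔ ∃ σ ∈ H, σ x = y := by
  classical
  unfold orb
  rw [Finset.mem_filter]
  simp only [Finset.mem_univ, true_and]

open Classical in
/-- MS4c: orbits of the relative structure on the complement of `A` -/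
theorem orb_Rel (R : Interp S ar V) (A : Finset V) (x : {v : V // v ∉ A}) :
    (orb (AuG (Rel R (fun x : {v : V // v ∉ A} => x.1))) x).card ≤ (oA R A x.1).card := by
  apply Finset.card_le_card_of_injOn (fun y => y.1)
  · intro y hy
    have hy' : y ∈ orb (AuG (Rel R (fun x : {v : V // v ∉ A} => x.1))) x := hy
    obtain ⟨γ, hγ, rfl⟩ := mem_orb88.1 hy'
    obtain ⟨σ, h1, h2⟩ := exists_ext (w := fun x : {v : V // v ∉ A} => x.1) Subtype.val_injective γ
    show (γ x).1 ∈ oA R A x.1
    refine mem_orb'.2 ⟨σ, mem_GS.2 ⟨?_, fun a ha => h2 a (fun x hx => x.2 (hx ▸ ha))⟩, h1 x⟩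
    rw [AuG_Rel R _ Subtype.val_injective] at hγ
    exact mem_res.1 hγ σ h1 h2
  · intro y _ z _ hyz
    exact Subtype.ext hyz

end Pool.Agent.Helper38.MS
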